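import Mathlib
import Pool.Agent.Helper547.Alpha.Defs
import Pool.Agent.Helper150.Al.TwoDim

set_option autoImplicit false

namespace Pool.Agent.Results.MP_9667ca_an.OddDimensions

open Pool.Agent.Helper547.Alpha

/-- `α(n)`: the supremum of `α(E)` over all complex normed spaces `E` of dimension `n`. -/
noncomputable def alphaN (n : ℕ) : ℝ :=
  sSup {r : ℝ | ∃ (E : Type) (_ : NormedAddCommGroup E) (_ : NormedSpace ℂ E),
    FiniteDimensional ℂ E ∧ Module.finrank ℂ E = n ∧ r = alpha E}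

theorem le_alphaN (n : ℕ) (E : Type) [NormedAddCommGroup E] [NormedSpace ℂ E]
    [FiniteDimensional ℂ E] (hE : Module.finrank ℂ E = n) : alpha E ≤ alphaN n := by
  apply le_csSup
  · refine ⟨((n : ℝ) + 1) / 2, ?_⟩
    rintro r ⟨F, _, _, hF, hd, rfl⟩
    exact Pool.Agent.Helper150.Al.alpha_le_all hd
  · exact ⟨E, inferInstance, inferInstance, inferInstance, hE, rfl⟩

theorem alphaN_le (n : ℕ) (c : ℝ)
    (h : ∀ (E : Type) [NormedAddCommGroup E] [NormedSpace ℂ E] [FiniteDimensional ℂ E],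
      Module.finrank ℂ E = n → alpha E ≤ c) : alphaN n ≤ c := by
  apply csSup_le
  · exact ⟨_, EuclideanSpace ℂ (Fin n), inferInstance, inferInstance, inferInstance, by simp, rfl⟩
  · rintro r ⟨F, _, _, hF, hd, rfl⟩
    exact h F hd

theorem l2_odd (n : ℕ) (hn : Odd n) : alpha (EuclideanSpace ℂ (Fin n)) = ((n : ℝ) + 1) / 2 := by
  refine le_antisymm (Pool.Agent.Helper150.Al.alpha_le_all (by simp)) ?_
  obtain ⟨m, rfl⟩ := hn
  have h := lower_fock (2 * m + 1) m (by omega)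
  refine le_trans (le_of_eq ?_) h
  push_cast
  rw [show ((m : ℝ) + 1) * (2 * m + 1 - m) = (m + 1) ^ 2 by ring, Real.sqrt_sq (by positivity)]
  ring

/-- (1) For odd `n`, `α(n) = (n+1)/2`, and the `n`-dimensional normed spaces `E` with
`α(E) = α(n)` are exactly the Hilbert spaces: `E` is extremal iff it is isometric to `ℓ_2ⁿ`.
(2) `α(2) = √2`, and `ℓ_2²` is extremal.
(3) For every `n ≥ 1` and every `n`-dimensional `E`: `α(E) ≤ (n+1)/2`, with equality only if `E`
is isometric to `ℓ_2ⁿ`. -/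
theorem result :
    (∀ n : ℕ, Odd n → alphaN n = ((n : ℝ) + 1) / 2 ∧
      ∀ (E : Type) [NormedAddCommGroup E] [NormedSpace ℂ E] [FiniteDimensional ℂ E],
        Module.finrank ℂ E = n →
          (alpha E = alphaN n ↔ Nonempty (E ≃ₗᵢ[ℂ] EuclideanSpace ℂ (Fin n)))) ∧
    (alphaN 2 = Real.sqrt 2 ∧ alpha (EuclideanSpace ℂ (Fin 2)) = alphaN 2) ∧
    (∀ n : ℕ, 1 ≤ n →
      ∀ (E : Type) [NormedAddCommGroup E] [NormedSpace ℂ E] [FiniteDimensional ℂ E],
        Module.finrank ℂ E = n → alpha E ≤ ((n : ℝ) + 1) / 2 ∧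
          (alpha E = ((n : ℝ) + 1) / 2 → Nonempty (E ≃ₗᵢ[ℂ] EuclideanSpace ℂ (Fin n)))) := by
  refine ⟨?_, ?_, ?_⟩
  · intro n hn
    have h1 : alphaN n = ((n : ℝ) + 1) / 2 := by
      refine le_antisymm (alphaN_le n _ fun E _ _ _ hE => Pool.Agent.Helper150.Al.alpha_le_all hE) ?_
      rw [← l2_odd n hn]
      exact le_alphaN n _ (by simp)
    refine ⟨h1, ?_⟩
    intro E _ _ _ hE
    constructor
    · intro h
      exact Pool.Agent.Helper150.Al.euclid_of_alpha hn.pos hE (by rw [h, h1])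
    · rintro ⟨e⟩
      rw [h1, Pool.Agent.Helper150.Al.alpha_congr e, l2_odd n hn]
  · have h1 : alphaN 2 = Real.sqrt 2 := by
      refine le_antisymm (alphaN_le 2 _ fun E _ _ _ hE => Pool.Agent.Helper150.Al.alpha_le_two hE) ?_
      rw [← Pool.Agent.Helper150.Al.alpha_l2_two]
      exact le_alphaN 2 _ (by simp)
    exact ⟨h1, by rw [h1, Pool.Agent.Helper150.Al.alpha_l2_two]⟩
  · intro n hn E _ _ _ hE
    exact ⟨Pool.Agent.Helper150.Al.alpha_le_all hE, fun h =>
      Pool.Agent.Helper150.Al.euclid_of_alpha hn hE h.ge⟩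

end Pool.Agent.Results.MP_9667ca_an.OddDimensions
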